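import Mathlib
import Pool.Agent.Q124.STB.Main

/-!
# Strong tree-breadth is not bounded by any function of tree-breadth

The recursive wheel graph of depth `N`: start with a wheel whose sixteen spokes have length two,
make every rim vertex the hub of a new wheel, and repeat this to depth `N`. Its tree-breadth is at
most two, while its strong tree-breadth is at least `N`.
-/

set_option autoImplicit false

namespace Pool.Agent.Results.MP_3ffbec_co.RecursiveWheels

open SimpleGraph

/-- A tree-decomposition of `G`: a finite tree with a bag of vertices at every node, such that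
every vertex and every edge lies in a bag and the bags containing a given vertex form a subtree. -/
structure TreeDecomposition {V : Type} (G : SimpleGraph V) where
  /-- the nodes of the tree -/
  node : Type
  /-- there are finitely many nodes -/
  finite_node : Finite node
  /-- the tree -/
  tree : SimpleGraph node
  /-- it is a tree -/
  isTree : tree.IsTree
  /-- the bags -/
  bag : node → Set V
  /-- every vertex lies in a bag -/
  vertex_mem : ∀ v, ∃ i, v ∈ bag i
  /-- every edge lies in a bag -/
  edge_mem : ∀ u v, G.Adj u v → ∃ i, u ∈ bag i ∧ v ∈ bag i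
  /-- the bags containing a given vertex form a subtree -/
  subtree : ∀ v, (tree.induce {i | v ∈ bag i}).Connected

/-- the disk of radius `r` about `v` -/
def disk {V : Type} (G : SimpleGraph V) (v : V) (r : ℕ) : Set V := {u | G.edist u v ≤ (r : ℕ∞)}

/-- the tree-breadth: the least `r` such that some tree-decomposition has every bag contained in
a disk of radius `r` -/
noncomputable def tb {V : Type} (G : SimpleGraph V) : ℕ :=
  sInf {r : ℕ | ∃ D : TreeDecomposition G, ∀ i, ∃ v, D.bag i ⊆ disk G v r}

/-- the strong tree-breadth: the least `r` such that some tree-decomposition has every bag equal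
to a disk of radius `r` about one of the vertices of the bag -/
noncomputable def stb {V : Type} (G : SimpleGraph V) : ℕ :=
  sInf {r : ℕ | ∃ D : TreeDecomposition G, ∀ i, ∃ v ∈ D.bag i, D.bag i = disk G v r}

open Pool.Agent.Q124.STB

theorem mem_disk {V : Type} {G : SimpleGraph V} (hG : G.Connected) (u v : V) (r : ℕ) :
    u ∈ disk G v r ↔ G.dist u v ≤ r := by
  show G.edist u v ≤ (r : ℕ∞) ↔ _
  rw [← (hG.preconnected u v).coe_dist_eq_edist]
  exact Nat.cast_le

/-- the one-bag decomposition -/
theorem exists_strong {V : Type} [Finite V] {G : SimpleGraph V} (hG : G.Connected) :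
    {r : ℕ | ∃ D : TreeDecomposition G, ∀ i, ∃ v ∈ D.bag i, D.bag i = disk G v r}.Nonempty := by
  obtain ⟨v⟩ := hG.nonempty
  obtain ⟨r, hr⟩ := (Set.finite_range (fun u => G.dist u v)).bddAbove
  have hc : (⊥ : SimpleGraph Unit).Connected :=
    { preconnected := fun u v => by rw [Subsingleton.elim u v], nonempty := ⟨()⟩ }
  refine ⟨r, ⟨Unit, inferInstance, ⊥, isTree_of_parent _ (fun _ => 0) id (fun _ _ h => h.elim) hc,
    fun _ => Set.univ, fun _ => ⟨(), trivial⟩, fun _ _ _ => ⟨(), trivial, trivial⟩, fun w => ?_⟩,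
    fun _ => ⟨v, trivial, ?_⟩⟩
  · exact { preconnected := fun a b => by rw [Subsingleton.elim a b],
            nonempty := ⟨⟨(), trivial⟩⟩ }
  · ext u
    simp only [Set.mem_univ, true_iff]
    rw [mem_disk hG]
    exact hr ⟨u, rfl⟩

/-! ### The decomposition of breadth two -/

/-- nodes of the tree -/
abbrev Nd (N : ℕ) : Type := {w : List Z // w.length ≤ N}

instance (N : ℕ) : Finite (Nd N) := (List.finite_length_le Z N).to_subtype

instance (N : ℕ) : Finite (Vx N) := by
  refine Finite.of_injective (fun x : Vx N => ((⟨x.1.1, x.2.1⟩ : Nd N), x.1.2)) ?_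
  intro x y h
  simp only [Prod.mk.injEq, Subtype.mk.injEq] at h
  exact Subtype.ext (Prod.ext h.1 h.2)

/-- the tree of words -/
def Tr (N : ℕ) : SimpleGraph (Nd N) where
  Adj u v := (∃ a, u.1 = a :: v.1) ∨ (∃ a, v.1 = a :: u.1)
  symm := ⟨fun _ _ h => h.symm⟩
  loopless := ⟨fun u h => by
    rcases h with ⟨a, h⟩ | ⟨a, h⟩ <;> have := congrArg List.length h <;> simp at this⟩

theorem tr_reach {N : ℕ} (w : List Z) (h : w.length ≤ N) :
    (Tr N).Reachable ⟨w, h⟩ ⟨[], Nat.zero_le _⟩ := by
  induction w with
  | nil => exact Reachable.refl _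
  | cons a w ih =>
    have h' : w.length ≤ N := by simp at h; omega
    have : (Tr N).Adj ⟨a :: w, h⟩ ⟨w, h'⟩ := Or.inl ⟨a, rfl⟩
    exact this.reachable.trans (ih h')

theorem tr_tree (N : ℕ) : (Tr N).IsTree := by
  refine isTree_of_parent _ (fun w => w.1.length)
    (fun w => ⟨w.1.tail, by have := w.2; simp; omega⟩) (fun u v h => ?_) ?_
  · rcases h with ⟨a, h⟩ | ⟨a, h⟩
    · left
      refine ⟨by rw [h]; simp, Subtype.ext (by simp [h])⟩
    · right
      refine ⟨by rw [h]; simp, Subtype.ext (by simp [h])⟩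
  · exact { preconnected := fun u v => (tr_reach u.1 u.2).trans (tr_reach v.1 v.2).symm,
            nonempty := ⟨⟨[], Nat.zero_le _⟩⟩ }

/-- the bag at a word: the hub, the middles of its spokes and its rim -/
def bg {N : ℕ} (i : Nd N) : Set (Vx N) :=
  {x | x.1 = (i.1, false) ∨ ∃ a, x.1.1 = a :: i.1}

theorem bg_conn {N : ℕ} (x : Vx N) : ((Tr N).induce {i | x ∈ bg i}).Connected := by
  have hlen : x.1.1.tail.length ≤ N := by have := x.2.1; simp; omega
  have hc : x ∈ bg (⟨x.1.1.tail, hlen⟩ : Nd N) := by
    rcases vx_cases x with ⟨w, h, rfl⟩ | ⟨a, w, h, rfl⟩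
    · cases w with
      | nil => left; rfl
      | cons a w => right; exact ⟨a, rfl⟩
    · right; exact ⟨a, rfl⟩
  have key : ∀ i : {i : Nd N | x ∈ bg i}, ((Tr N).induce {i | x ∈ bg i}).Reachable i
      ⟨⟨x.1.1.tail, hlen⟩, hc⟩ := by
    rintro ⟨i, hi⟩
    have hi' := hi
    rcases hi' with h | ⟨a, h⟩
    · rcases vx_cases x with ⟨w, hw, rfl⟩ | ⟨a, w, hw, rfl⟩
      · cases w with
        | nil =>
          have e : i = ⟨[], Nat.zero_le _⟩ := by
            apply Subtype.ext
            have := congrArg Prod.fst h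
            exact this.symm
          subst e
          exact Reachable.refl _
        | cons a w =>
          apply Adj.reachable
          left
          refine ⟨a, ?_⟩
          have := congrArg Prod.fst h
          exact this.symm
      · have := congrArg Prod.snd h
        simp [M] at this
    · have e : i = ⟨x.1.1.tail, hlen⟩ := by
        apply Subtype.ext
        simp [h]
      subst e
      exact Reachable.refl _
  exact { preconnected := fun u v => (key u).trans (key v).symm, nonempty := ⟨⟨_, hc⟩⟩ }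

/-- the decomposition into wheels -/
def dec (N : ℕ) : TreeDecomposition (Gr N) where
  node := Nd N
  finite_node := inferInstance
  tree := Tr N
  isTree := tr_tree N
  bag := bg
  vertex_mem := fun v => by
    obtain ⟨i⟩ := (bg_conn v).nonempty
    exact ⟨i.1, i.2⟩
  edge_mem := by
    have key : ∀ u v : Vx N, Rl u.1 v.1 → ∃ i : Nd N, u ∈ bg i ∧ v ∈ bg i := by
      rintro u v (⟨w, a, e1, e2⟩ | ⟨z, e1, e2⟩ | ⟨a, w, e1, e2⟩)
      · have hw : w.length ≤ N := by have := u.2.1; rw [e1] at this; exact this
        exact ⟨⟨w, hw⟩, Or.inl e1, Or.inr ⟨a, by rw [e2]⟩⟩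
      · cases z with
        | nil => exact absurd (by rw [e1]) (u.2.2 (by rw [e1]))
        | cons a w =>
          have hw : w.length ≤ N := by
            have := u.2.1; rw [e1] at this; simp at this; omega
          exact ⟨⟨w, hw⟩, Or.inr ⟨a, by rw [e1]⟩, Or.inr ⟨a, by rw [e2]⟩⟩
      · have hw : w.length ≤ N := by
          have := u.2.1; rw [e1] at this; simp at this; omega
        exact ⟨⟨w, hw⟩, Or.inr ⟨a, by rw [e1]⟩, Or.inr ⟨a + 1, by rw [e2]⟩⟩
    rintro u v (h | h)
    · exact key u v h
    · obtain ⟨i, h1, h2⟩ := key v u h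
      exact ⟨i, h2, h1⟩
  subtree := bg_conn

theorem dec_breadth (N : ℕ) (i : Nd N) : ∃ v, bg i ⊆ disk (Gr N) v 2 := by
  refine ⟨H i.1 i.2, fun x hx => ?_⟩
  rw [mem_disk conn]
  rcases vx_cases x with ⟨w, h, rfl⟩ | ⟨a, w, h, rfl⟩
  · rcases hx with e | ⟨a, e⟩
    · have e' : w = i.1 := congrArg Prod.fst e
      subst e'
      rw [SimpleGraph.dist_self]; omega
    · have e' : w = a :: i.1 := e
      subst e'
      rw [SimpleGraph.dist_comm]
      exact d_H_cons a i.1 h
  · rcases hx with e | ⟨b, e⟩
    · have := congrArg Prod.snd e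
      simp [M] at this
    · have e' : a :: w = b :: i.1 := e
      have e1 : w = i.1 := (List.cons.inj e').2
      subst e1
      rw [SimpleGraph.dist_comm, d_HM]; omega

theorem tb_le (N : ℕ) : tb (Gr N) ≤ 2 := Nat.sInf_le ⟨dec N, dec_breadth N⟩

theorem lt_stb (R : ℕ) : R < stb (Gr (R + 1)) := by
  obtain ⟨D, hD⟩ := Nat.sInf_mem (exists_strong (G := Gr (R + 1)) conn)
  change ∀ i, ∃ v ∈ D.bag i, D.bag i = disk (Gr (R + 1)) v (stb (Gr (R + 1))) at hD
  by_contra hle
  push Not at hle
  generalize stb (Gr (R + 1)) = r at hD hle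
  choose s hs1 hs2 using hD
  have hmem : ∀ v i, v ∈ D.bag i ↔ (Gr (R + 1)).dist v (s i) ≤ r := by
    intro v i
    rw [hs2 i, mem_disk conn]
  refine no_strong D.isTree r (by omega) s (fun v => ?_) (fun u v h => ?_) (fun v => ?_)
  · obtain ⟨i, hi⟩ := D.vertex_mem v
    exact ⟨i, (hmem v i).1 hi⟩
  · obtain ⟨i, h1, h2⟩ := D.edge_mem u v h
    exact ⟨i, (hmem u i).1 h1, (hmem v i).1 h2⟩
  · have h1 := wconn_of_preconnected (D.subtree v).preconnected
    have h2 : {i | v ∈ D.bag i} = {i | (Gr (R + 1)).dist v (s i) ≤ r} := by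
      ext i; exact hmem v i
    rwa [h2] at h1

/-- **Strong tree-breadth is not bounded in terms of tree-breadth.** There is no constant `c`
with `stb G ≤ c * tb G` for all finite connected graphs `G`; in fact for every `R` there is a
finite connected graph of tree-breadth at most two and strong tree-breadth more than `R`. -/
theorem result :
    (¬ ∃ c : ℝ, ∀ (V : Type) (_ : Finite V) (G : SimpleGraph V), G.Connected →
      (stb G : ℝ) ≤ c * (tb G : ℝ)) ∧
    ∀ R : ℕ, ∃ (V : Type) (_ : Finite V) (G : SimpleGraph V),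
      G.Connected ∧ tb G ≤ 2 ∧ R < stb G := by
  refine ⟨?_, fun R => ⟨Vx (R + 1), inferInstance, Gr (R + 1), conn, tb_le _, lt_stb R⟩⟩
  rintro ⟨c, hc⟩
  obtain ⟨R, hR⟩ := exists_nat_gt (2 * |c|)
  have h1 := hc _ inferInstance (Gr (R + 1)) conn
  have h2 : (R : ℝ) < stb (Gr (R + 1)) := by exact_mod_cast lt_stb R
  have h3 : (tb (Gr (R + 1)) : ℝ) ≤ 2 := by exact_mod_cast tb_le (R + 1)
  have h4 : (0 : ℝ) ≤ tb (Gr (R + 1)) := by positivity
  have h5 : c * (tb (Gr (R + 1)) : ℝ) ≤ |c| * 2 :=
    (mul_le_mul_of_nonneg_right (le_abs_self c) h4).trans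
      (mul_le_mul_of_nonneg_left h3 (abs_nonneg c))
  linarith

end Pool.Agent.Results.MP_3ffbec_co.RecursiveWheels
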